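import Pool.Agent.H50.LV.Targets

/-!
# HYP: decay in the frequency (helper23)
-/

set_option autoImplicit false

namespace Pool.Agent.H23.LVE

open Finset MeasureTheory Pool.Agent.H24.CL Pool.Agent.H24.LV Pool.Agent.H50.LV

theorem pf_HYP (h1 : T_PCE) (h2 : T_PIE) (h3 : T_SUB) : T_HYP := by
  intro k
  obtain ⟨C, hC, h⟩ := h1
  have hk0 : (0 : ℝ) ≤ k := Nat.cast_nonneg k
  refine ⟨(2 * k + 1) * C, 2 * k + 1, by nlinarith, ?_⟩
  intro P hP
  obtain ⟨x, hx0, hx1, hxm, hx⟩ := h2 k P hP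
  have hlo : ∀ i, -1 ≤ x i := fun i => hx0 ▸ hxm (Nat.zero_le i)
  have hhi : ∀ i, i < 2 * k + 1 → x (i + 1) ≤ 1 := fun i hi => by
    rw [← hx1]; exact hxm hi
  have hτ : ∀ i : ℕ, ∃ t₀ : ℝ, i < 2 * k + 1 → ∀ t a b : ℝ, x i ≤ a → a ≤ b →
      b ≤ x (i + 1) → ‖OP P t a b‖ ^ 2 ≤ C / (1 + |t - t₀|) := by
    intro i
    by_cases hi : i < 2 * k + 1
    · obtain ⟨t₀, ht⟩ := h P (x i) (x (i + 1)) (hlo i) (hxm (Nat.le_succ i)) (hhi i hi)
        (hx i hi).1 (hx i hi).2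
      exact ⟨t₀, fun _ => ht⟩
    · exact ⟨0, fun h => absurd h hi⟩
  choose τ hτ using hτ
  refine ⟨fun i => τ i, fun t a b ha hab hb => ?_⟩
  have hcont : Continuous fun y : ℝ => e ((t * y + P.eval y : ℝ) : UnitAddCircle) := by
    unfold e
    fun_prop
  have hB := h3 (fun y : ℝ => e ((t * y + P.eval y : ℝ) : UnitAddCircle)) (2 * k + 1) x
    (fun i => Real.sqrt (C / (1 + |t - τ i|))) a b hcont hxm (by rw [hx0]; exact ha) hab
    (by rw [hx1]; exact hb) (fun i hi a' b' ha' hab' hb' =>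
      Real.le_sqrt_of_sq_le (hτ i hi t a' b' ha' hab' hb'))
  have hB' : ‖OP P t a b‖ ≤ ∑ i ∈ range (2 * k + 1), Real.sqrt (C / (1 + |t - τ i|)) := hB
  have h0 : 0 ≤ ‖OP P t a b‖ := norm_nonneg _
  calc ‖OP P t a b‖ ^ 2 ≤ (∑ i ∈ range (2 * k + 1), Real.sqrt (C / (1 + |t - τ i|))) ^ 2 :=
        pow_le_pow_left₀ h0 hB' 2
    _ ≤ ((range (2 * k + 1)).card : ℝ) *
        ∑ i ∈ range (2 * k + 1), Real.sqrt (C / (1 + |t - τ i|)) ^ 2 :=
        sq_sum_le_card_mul_sum_sq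
    _ = (2 * k + 1) * ∑ i ∈ range (2 * k + 1), C * (1 / (1 + |t - τ i|)) := by
        rw [card_range]
        push_cast
        congr 1
        apply sum_congr rfl
        intro i _
        rw [Real.sq_sqrt (by positivity)]
        ring
    _ = (2 * k + 1) * C * ∑ i : Fin (2 * k + 1), 1 / (1 + |t - τ i|) := by
        rw [← mul_sum, Fin.sum_univ_eq_sum_range (fun i => 1 / (1 + |t - τ i|))]
        ring

end Pool.Agent.H23.LVE
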