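import Pool.Agent.H50.LV.Targets

/-!
# SUB: the integral is at most the sum over the pieces (helper23)
-/

set_option autoImplicit false

namespace Pool.Agent.H23.LVE

open Finset MeasureTheory Pool.Agent.H24.CL Pool.Agent.H24.LV Pool.Agent.H50.LV

theorem pf_SUB : T_SUB := by
  intro F m x B a b hF hx h0 hab hb hB
  induction m generalizing a b with
  | zero =>
    have h : a = b := le_antisymm hab (hb.trans h0)
    subst h; simp
  | succ m ih =>
    have hBn : ∀ i < m + 1, 0 ≤ B i := by
      intro i hi
      have h := hB i hi (x i) (x i) le_rfl le_rfl (hx (Nat.le_succ i))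
      simpa using h
    rw [sum_range_succ]
    rcases le_or_gt b (x m) with h | h
    · have h1 := ih a b h0 hab h (fun i hi => hB i (by omega))
      linarith [hBn m (by omega)]
    · rcases le_or_gt a (x m) with h' | h'
      · have e1 := ih a (x m) h0 h' le_rfl (fun i hi => hB i (by omega))
        have e2 := hB m (by omega) (x m) b le_rfl h.le hb
        rw [← intervalIntegral.integral_add_adjacent_intervals
          (hF.intervalIntegrable a (x m)) (hF.intervalIntegrable (x m) b)]
        exact (norm_add_le _ _).trans (add_le_add e1 e2)
      · have e2 := hB m (by omega) a b h'.le hab hb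
        have h3 : 0 ≤ ∑ i ∈ range m, B i := sum_nonneg fun i hi =>
          hBn i (by have := mem_range.mp hi; omega)
        linarith

end Pool.Agent.H23.LVE
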